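import Mathlib

set_option autoImplicit false

namespace Pool.Agent.Results.MP_b6680e_pr.NotFKG

section Defs
variable {n m : ℕ} (ends : Fin m → Fin n × Fin n)

/-- A finite simple graph on `Fin n` with edges indexed by `Fin m`. -/
def IsSimple : Prop := (∀ e, (ends e).1 < (ends e).2) ∧ Function.Injective ends

open Classical in
/-- The cluster of `v`: its connected component in the graph of open edges `op`. -/
noncomputable def cluster (op : Finset (Fin m)) (v : Fin n) : Finset (Fin n) :=
  Finset.univ.filter (Relation.EqvGen (fun a b => ∃ e ∈ op, ends e = (a, b)) v)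

/-- Closed edges with both endpoints warm (`fr` is the set of frozen vertices). -/
def openable (op : Finset (Fin m)) (fr : Finset (Fin n)) : Finset (Fin m) :=
  Finset.univ.filter (fun e => e ∉ op ∧ (ends e).1 ∉ fr ∧ (ends e).2 ∉ fr)

/-- The clusters that still contain a warm vertex. -/
noncomputable def warm (op : Finset (Fin m)) (fr : Finset (Fin n)) : Finset (Finset (Fin n)) :=
  (Finset.univ.filter (fun v => v ∉ fr)).image (cluster ends op)

open Classical in
/-- Probability that the open edge set lies in `A` after `k` jumps of the jump chain started at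
`(op, fr)`; the chain stays put once every vertex is frozen. -/
noncomputable def law (α : ℝ) (A : Set (Finset (Fin m))) :
    ℕ → Finset (Fin m) → Finset (Fin n) → ℝ
  | 0, op, _ => if op ∈ A then 1 else 0
  | k + 1, op, fr =>
    if fr = Finset.univ then (if op ∈ A then 1 else 0) else
      (∑ e ∈ openable ends op fr, law α A k (insert e op) fr +
        α * ∑ C ∈ warm ends op fr, law α A k op (fr ∪ C)) /
      ((openable ends op fr).card + α * (warm ends op fr).card)

/-- The final-configuration law: every jump opens an edge or freezes a vertex, so the chain is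
absorbed after at most `n + m` jumps. -/
noncomputable def mu (α : ℝ) (A : Set (Finset (Fin m))) : ℝ := law ends α A (n + m) ∅ ∅

def FKG (α : ℝ) : Prop :=
  ∀ A B : Set (Finset (Fin m)), IsUpperSet A → IsUpperSet B →
    mu ends α A * mu ends α B ≤ mu ends α (A ∩ B)

end Defs

def K4 : Fin 6 → Fin 4 × Fin 4 := ![(0, 1), (0, 2), (0, 3), (1, 2), (1, 3), (2, 3)]

def step (op : Finset (Fin 6)) (S : Finset (Fin 4)) : Finset (Fin 4) :=
  Finset.univ.filter (fun u => u ∈ S ∨ ∃ e ∈ op, ((K4 e).1 = u ∧ (K4 e).2 ∈ S) ∨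
    ((K4 e).2 = u ∧ (K4 e).1 ∈ S))

def cl (op : Finset (Fin 6)) (v : Fin 4) : Finset (Fin 4) := step op (step op (step op {v}))

lemma cl_closed : ∀ (op : Finset (Fin 6)) (v : Fin 4), v ∈ cl op v ∧
    ∀ e ∈ op, ((K4 e).1 ∈ cl op v ↔ (K4 e).2 ∈ cl op v) := by decide +kernel

lemma cluster_eq (op : Finset (Fin 6)) (v : Fin 4) : cluster K4 op v = cl op v := by
  ext u
  simp only [cluster, Finset.mem_filter, Finset.mem_univ, true_and]
  constructor
  · intro h
    have key : ∀ a b, Relation.EqvGen (fun a b => ∃ e ∈ op, K4 e = (a, b)) a b →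
        (a ∈ cl op v ↔ b ∈ cl op v) := by
      intro a b h
      induction h with
      | rel a b h =>
        obtain ⟨e, he, h⟩ := h
        have := (cl_closed op v).2 e he
        rwa [h] at this
      | refl => rfl
      | symm _ _ _ ih => exact ih.symm
      | trans _ _ _ _ _ ih1 ih2 => exact ih1.trans ih2
    exact (key v u h).1 (cl_closed op v).1
  · have key : ∀ S : Finset (Fin 4),
        (∀ u ∈ S, Relation.EqvGen (fun a b => ∃ e ∈ op, K4 e = (a, b)) v u) →
        ∀ u ∈ step op S, Relation.EqvGen (fun a b => ∃ e ∈ op, K4 e = (a, b)) v u := by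
      intro S hS u hu
      simp only [step, Finset.mem_filter, Finset.mem_univ, true_and] at hu
      rcases hu with hu | ⟨e, he, ⟨h1, h2⟩ | ⟨h1, h2⟩⟩
      · exact hS u hu
      · exact .trans _ _ _ (hS _ h2) (.symm _ _ (.rel _ _ ⟨e, he, by rw [← h1]⟩))
      · exact .trans _ _ _ (hS _ h2) (.rel _ _ ⟨e, he, by rw [← h1]⟩)
    refine key _ (key _ (key _ ?_)) u
    intro w hw
    rw [Finset.mem_singleton.1 hw]
    exact .refl _

def lawQ (p : Finset (Fin 6) → Bool) : ℕ → Finset (Fin 6) → Finset (Fin 4) → ℚ
  | 0, op, _ => if p op then 1 else 0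
  | k + 1, op, fr =>
    if fr = Finset.univ then (if p op then 1 else 0) else
      (∑ e ∈ openable K4 op fr, lawQ p k (insert e op) fr +
        (1 / 32) * ∑ C ∈ (Finset.univ.filter (fun v => v ∉ fr)).image (cl op),
          lawQ p k op (fr ∪ C)) /
      ((openable K4 op fr).card +
        (1 / 32) * ((Finset.univ.filter (fun v => v ∉ fr)).image (cl op)).card)

lemma law_eq (p : Finset (Fin 6) → Bool) (k : ℕ) : ∀ op fr,
    law K4 (1 / 32) {x | p x = true} k op fr = (lawQ p k op fr : ℝ) := by
  induction k with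
  | zero => intro op fr; simp only [law, lawQ, Set.mem_setOf_eq]; split_ifs <;> simp
  | succ k ih =>
    intro op fr
    have e : warm K4 op fr = (Finset.univ.filter (fun v => v ∉ fr)).image (cl op) := by
      unfold warm; congr 1; funext v; exact cluster_eq op v
    simp only [law, lawQ, Set.mem_setOf_eq, e, ih]
    split_ifs <;> simp

def pA (x : Finset (Fin 6)) : Bool := decide (2 ∈ x ∨ 3 ∈ x)
def pB (x : Finset (Fin 6)) : Bool := decide (0 ∈ x ∨ 1 ∈ x ∨ 4 ∈ x ∨ 5 ∈ x)

lemma compute : lawQ (fun x => pA x && pB x) 10 ∅ ∅ < lawQ pA 10 ∅ ∅ * lawQ pB 10 ∅ ∅ := by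
  decide +kernel

theorem result : (IsSimple K4 ∧ ¬ FKG K4 (1 / 32)) ∧
    ¬ ∀ (n m : ℕ) (ends : Fin m → Fin n × Fin n), IsSimple ends → ∀ α : ℝ, 0 < α → FKG ends α := by
  have h1 : IsSimple K4 := by unfold IsSimple; decide
  have h2 : ¬ FKG K4 (1 / 32) := by
    intro h
    have hA : IsUpperSet {x | pA x = true} := by
      intro x y hxy hx
      simp only [pA, Set.mem_setOf_eq, decide_eq_true_eq] at hx ⊢
      exact hx.imp (fun h => hxy h) (fun h => hxy h)
    have hB : IsUpperSet {x | pB x = true} := by
      intro x y hxy hx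
      simp only [pB, Set.mem_setOf_eq, decide_eq_true_eq] at hx ⊢
      exact hx.imp (fun h => hxy h) (fun hx => hx.imp (fun h => hxy h)
        (fun hx => hx.imp (fun h => hxy h) (fun h => hxy h)))
    have := h _ _ hA hB
    have e : {x | pA x = true} ∩ {x | pB x = true} = {x | (pA x && pB x) = true} := by
      ext x; simp
    rw [e] at this
    unfold mu at this
    rw [law_eq pA, law_eq pB, law_eq (fun x => pA x && pB x)] at this
    have c := compute
    have c' : ((lawQ (fun x => pA x && pB x) 10 ∅ ∅ : ℚ) : ℝ) <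
        (lawQ pA 10 ∅ ∅ : ℝ) * (lawQ pB 10 ∅ ∅ : ℝ) := by exact_mod_cast c
    exact absurd this (not_le.2 c')
  exact ⟨⟨h1, h2⟩, fun h => h2 (h 4 6 K4 h1 _ (by norm_num))⟩

end Pool.Agent.Results.MP_b6680e_pr.NotFKG
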